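import Pool.Agent.Q23.CN.Cor

/-!
# The determinant of `(j+k/p) + (j-k/p) + (jk/p)` over a half range

For `p = 3 mod 4` the inverse of the matrix `S` of the sums `(j+k/p) + (j-k/p)` is known up to rank
one and its determinant is found, with its sign, from the factorisation of `S` into matrices of
sines and cosines.  The class number enters by Dirichlet's class number formula, which is proved
here for the fields `ℚ(√-p)`.
-/

set_option autoImplicit false

namespace Pool.Agent.Results.MP_4f0cf1_nt.SumOfThree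

open NumberField

/-- `det M_p`: the determinant of the matrix with the entries
`((j+k)/p) + ((j-k)/p) + (jk/p)`, `1 ≤ j, k ≤ (p - 1) / 2`. -/
def detM (p : ℕ) [Fact p.Prime] : ℤ :=
  Matrix.det (Matrix.of fun j k : Fin ((p - 1) / 2) =>
    legendreSym p ((((j : ℕ) : ℤ) + 1) + (((k : ℕ) : ℤ) + 1))
      + legendreSym p ((((j : ℕ) : ℤ) + 1) - (((k : ℕ) : ℤ) + 1))
      + legendreSym p ((((j : ℕ) : ℤ) + 1) * (((k : ℕ) : ℤ) + 1)))

lemma detM_eq {p n : ℕ} [Fact p.Prime] (hp : p = 2 * n + 1) :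
    detM p = (Pool.Agent.Q23.HS.MM4 p n (0 : ℤ) 0 0 1).det := by
  have hn : (p - 1) / 2 = n := by omega
  subst hn
  rw [detM]
  congr 1
  ext j k
  rw [Matrix.of_apply, Pool.Agent.Q23.HS.MM4, Matrix.of_apply, Pool.Agent.Q23.HS.SS,
    Matrix.of_apply, Pool.Agent.Q23.HS.bb, Pool.Agent.Q23.HS.bb, ← Int.cast_mul,
    ← Pool.Agent.Q23.LD.ch_mul]
  simp only [legendreSym, Pool.Agent.Q23.LD.ch, Pool.Agent.Q23.HS.ix]
  push_cast
  ring

/-- **Main result.**  The answer to Q1.  Here `K` is any number field of degree two with a square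
root of `-p`, that is `ℚ(√-p)`. -/
theorem result :
    (∀ (p : ℕ) [Fact p.Prime], p % 4 = 1 →
      detM p = legendreSym p 2 * (p : ℤ) ^ ((p - 5) / 4)) ∧
    (∀ (p : ℕ) [Fact p.Prime], 3 < p → p % 4 = 3 →
      ∀ (K : Type) [Field K] [NumberField K], Module.finrank ℚ K = 2 →
      ∀ x : K, x ^ 2 = -(p : K) →
      Odd (classNumber K) ∧
      detM p = (-1) ^ ((classNumber K - 1) / 2) *
        (1 - (2 - legendreSym p 2) * (classNumber K : ℤ)) * (p : ℤ) ^ ((p - 3) / 4)) := by
  refine ⟨?_, ?_⟩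
  · intro p _ h4
    set n := (p - 1) / 2 with hn
    have hp : p = 2 * n + 1 := by omega
    obtain ⟨m, hm, hd⟩ := Pool.Agent.Q23.HS.det_MM4_one hp (Pool.Agent.Q23.LD.ch_neg_one h4)
    have h2 : legendreSym p 2 = (-1) ^ (m + 1) := by
      have := Pool.Agent.Q23.LD.ch_two (p := p) (h := m + 1) (by omega)
      rw [← this]
      simp only [legendreSym, Pool.Agent.Q23.LD.ch]
      push_cast
      rfl
    have hm' : (p - 5) / 4 = m := by omega
    rw [detM_eq hp, hd, h2, hm', neg_pow (p : ℤ) m]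
    ring
  · intro p _ h3 h4 K _ _ hK x hx
    have h7 : 7 ≤ p := by omega
    set n := (p - 1) / 2 with hn
    have hp : p = 2 * n + 1 := by omega
    obtain ⟨hodd, hP⟩ := Pool.Agent.Q23.CN.odd_class hp h4 h7 K hK x hx
    have hH := Pool.Agent.Q23.CN.HH_class hp h4 h7 K hK x hx
    refine ⟨hodd, ?_⟩
    have h2 : legendreSym p 2 = Pool.Agent.Q23.LD.ch p 2 := by
      simp only [legendreSym, Pool.Agent.Q23.LD.ch]
      push_cast
      rfl
    rw [detM_eq hp, Pool.Agent.Q23.HS.det_MM4_three hp h4 h7, Pool.Agent.Q23.HS.V3, hP, hH, h2]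
    obtain ⟨k, hk⟩ := hodd
    have e1 : (classNumber K + 1) / 2 = k + 1 := by omega
    have e2 : (classNumber K - 1) / 2 = k := by omega
    rw [e1, e2]
    push_cast
    ring

end Pool.Agent.Results.MP_4f0cf1_nt.SumOfThree
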